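import Pool.Agent.Helper12.CX.Defs
import Pool.Agent.Helper17.C75.Runs

/-!
Row `CAN` (canonical words), work file for `MP_c75db0_gt`, not imported by any hand-in.
-/

set_option autoImplicit false
noncomputable section
namespace Pool.Agent.Helper6.MONO
namespace CX17

open C75 (third)

theorem alt_eq (i j : Fin 3) (n : ℕ) : C75.alt i j n = alt i j n := by
  induction n generalizing i j with
  | zero => rfl
  | succ n ih =>
    change i :: C75.alt j i n = i :: alt j i n
    rw [ih]

/-- order of the star with index `c` -/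
def Mx (p q r : ℕ) (c : Fin 3) : ℕ := mm p q r (c + 1) (c + 2)

theorem Mx_third (p q r : ℕ) (x y : Fin 3) (h : x ≠ y) : Mx p q r (third x y) = mm p q r x y := by
  unfold Mx mm third
  fin_cases x <;> fin_cases y <;> first | exact absurd rfl h | rfl

theorem Mx_pos (p q r : ℕ) (hp : 3 ≤ p) (hq : 3 ≤ q) (hr : 3 ≤ r) (c : Fin 3) :
    Mx p q r c ≠ 0 ∧ Mx p q r c ≤ p + q + r := by
  unfold Mx mm
  fin_cases c
  · refine ⟨?_, ?_⟩ <;> simp <;> omega
  · refine ⟨?_, ?_⟩ <;> simp <;> omega
  · refine ⟨?_, ?_⟩ <;> simp <;> omega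

theorem nx_par (a b : Fin 3) (n : ℕ) : C75.nx a b n = if n % 2 = 0 then a else b := by
  induction n generalizing a b with
  | zero => rfl
  | succ n ih =>
    change C75.nx b a n = _
    rw [ih]
    split_ifs <;> first | rfl | omega

theorem step_state (x y : Fin 3) (m : ℕ) (hm : 2 ≤ m) :
    (C75.nx y (third x y) (m - 1),
      third (C75.nx y (third x y) (m - 2)) (C75.nx y (third x y) (m - 1)),
      C75.nx y (third x y) (m - 2)) = nxD m y (third x y) x := by
  obtain ⟨j, rfl⟩ : ∃ j, m = j + 2 := ⟨m - 2, by omega⟩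
  have e1 : j + 2 - 2 = j := by omega
  have e2 : j + 2 - 1 = j + 1 := by omega
  rw [e1, e2, C75.third_nx, C75.third_third', nx_par, nx_par]
  unfold nxD
  split_ifs <;> first | rfl | omega

theorem spell_dw (p q r : ℕ) (hpos : ∀ c, Mx p q r c ≠ 0) :
    ∀ (ms : List ℕ) (x y : Fin 3) (f : Bool), x ≠ y →
    C75.Runs (Mx p q r) x y f ms →
    y :: C75.spell x y ms = dw (y, third x y, x) ms ++ [(C75.fin x y ms).2] ∧
    okD p q r f (y, third x y, x) ms ∧ (C75.fin x y ms).1 ≠ (C75.fin x y ms).2 := by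
  intro ms
  induction ms with
  | nil => intro x y f h _; exact ⟨rfl, trivial, h⟩
  | cons m ms ih =>
    intro x y f hxy hr
    obtain ⟨h2, hf, hm, hr⟩ := hr
    have hcy : third x y ≠ y := C75.third_ne_right x y hxy
    obtain ⟨j, rfl⟩ : ∃ j, m = j + 2 := ⟨m - 2, by omega⟩
    have e1 : j + 2 - 2 = j := by omega
    have e2 : j + 2 - 1 = j + 1 := by omega
    have hst := step_state x y (j + 2) h2
    have hne : C75.nx y (third x y) (j + 2 - 2) ≠ C75.nx y (third x y) (j + 2 - 1) := by
      rw [e1, e2]; exact C75.nx_ne _ _ _ hcy.symm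
    obtain ⟨i1, i2, i3⟩ := ih _ _ _ hne hr
    rw [hst] at i1 i2
    have hM : Mx p q r x = mm p q r y (third x y) := by
      have h := Mx_third p q r y (third x y) hcy.symm
      rw [C75.third_third'] at h
      exact h
    refine ⟨?_, ?_, i3⟩
    · change y :: (C75.alt (third x y) y (j + 2 - 1) ++ C75.spell _ _ ms) = _
      change _ = (alt y (third x y) (j + 2 - 1) ++ dw (nxD (j + 2) y (third x y) x) ms) ++
        [(C75.fin _ _ ms).2]
      rw [List.append_assoc, ← i1, e2]
      have h1 : y :: C75.alt (third x y) y (j + 1) = C75.alt y (third x y) (j + 2) := rfl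
      rw [← List.cons_append, h1, C75.alt_succ y (third x y) (j + 1), alt_eq]
      simp
    · refine ⟨h2, ?_, hf, ?_⟩
      · rcases hm with h | h
        · exact absurd h (hpos x)
        · rw [← hM]; exact h
      · rw [← hM]; exact i2

theorem gact_append (G : Fin 3 → Fin 3 → ℂ) (u v : List (Fin 3)) (x : Fin 3 → ℂ) :
    gact G (u ++ v) x = gact G v (gact G u x) := by
  unfold gact; rw [List.foldl_append]

theorem dist_third (x y : Fin 3) (h : x ≠ y) : Dist y (third x y) x :=
  ⟨(C75.third_ne_right x y h).symm, C75.third_ne_left x y h, h⟩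

theorem st_CAN (hB : ST_BRD) (hI : ST_INV) : ST_CAN := by
  intro p q r hp hq hr
  have hpos : ∀ c, Mx p q r c ≠ 0 := fun c => (Mx_pos p q r hp hq hr c).1
  refine ⟨p + q + r, ?_⟩
  intro w
  obtain ⟨w', h1, _, h3⟩ := C75.canonicalE (Mx p q r) (Eqv p q r)
    (fun u τ G hG x => rfl)
    (fun u v w h1 h2 τ G hG x => (h1 τ G hG x).trans (h2 τ G hG x))
    (fun a u v b h τ G hG x => by
      simp only [gact_append]
      rw [h τ G hG (gact G a x)])
    (fun x => hI p q r hp hq hr x)
    (fun x y hxy => by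
      rw [alt_eq, alt_eq, Mx_third p q r x y hxy]
      exact hB p q r hp hq hr x y hxy) w
  rcases w' with _ | ⟨y, v⟩
  · exact ⟨[], [], 0, 1, 2, [], ⟨by decide, by decide, by decide⟩, by simp, by simp, trivial, h1⟩
  · obtain ⟨x, hxy, ha⟩ := C75.decode (Mx p q r) v y h3
    obtain ⟨ms, k, h4, h5, h6⟩ := C75.acc_runs (Mx p q r) ha
    obtain ⟨g1, g2, g3⟩ := spell_dw p q r hpos ms x y false hxy h4
    refine ⟨[], (C75.fin x y ms).2 ::
      C75.alt (third (C75.fin x y ms).1 (C75.fin x y ms).2) (C75.fin x y ms).2 k,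
      y, third x y, x, ms, dist_third x y hxy, by simp, ?_, g2, ?_⟩
    · rw [List.length_cons, C75.alt_length]
      rcases h5 with h5 | h5
      · exact absurd h5 (hpos _)
      · exact h5.trans (Mx_pos p q r hp hq hr _).2
    · have e : y :: v = [] ++ dw (y, third x y, x) ms ++ (C75.fin x y ms).2 ::
          C75.alt (third (C75.fin x y ms).1 (C75.fin x y ms).2) (C75.fin x y ms).2 k := by
        rw [h6, ← List.cons_append, g1]; simp
      rw [← e]; exact h1

end CX17
end Pool.Agent.Helper6.MONO
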