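import Pool.Agent.Helper17.C75.Kp8

/-!
Row KNI of MP_c75db0: identity blocks (entry tests with no run, exit tests with no run):
`A - lam B ≥ 0` for two forms of the table, affine in the parameter of the edge. Kernel function
and soundness at a corner.
-/

set_option autoImplicit false
set_option exponentiation.threshold 4000
noncomputable section
namespace Pool.Agent.Helper17.KNI

open Pool.Agent.Helper86.CX
open Pool.Agent.Helper17.PAK
open Complex ComplexConjugate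

/-- a target form with its source forms and multipliers -/
structure IE where
  k : Nat
  s : List SE

/-- `A - lam B - slack > 0` at an end -/
def idE (A B l : Nat) : Bool :=
  psd (md (Nat.add SC (Nat.add (Nat.mul NG (Nat.mul (nat_lit 33554432) (mkKN A)))
    (Nat.mul (Nat.mul (nat_lit 2) l) (mkKN B)))))
/-- the middle control -/
def idC (A0 A1 B0 B1 l0 l1 : Nat) : Bool :=
  psd (md (Nat.add SC (Nat.add (Nat.mul NG (Nat.mul (nat_lit 16777216)
    (Nat.add (mkKN A0) (mkKN A1)))) (Nat.add (Nat.mul l0 (mkKN B1)) (Nat.mul l1 (mkKN B0))))))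
/-- the three tests -/
def id3 (A0 A1 B0 B1 l0 l1 : Nat) : Bool :=
  andB (idE A0 B0 l0) (andB (idE A1 B1 l1) (idC A0 A1 B0 B1 l0 l1))
/-- at a corner -/
def id4 (LT : Nat) (k : Nat) (x : SE) (KT : K2) : Bool :=
  id3 (kf KT.s k) (kf KT.t k) (kf KT.s x.k) (kf KT.t x.k) (u32 LT (Nat.mul (nat_lit 64) x.l))
    (u32 LT (Nat.add (Nat.mul (nat_lit 64) x.l) (nat_lit 32)))
/-- at all corners -/
def idL (LT : Nat) (k : Nat) (x : SE) (l : List K2) : Bool :=
  List.rec (motive := fun _ => Bool) true (fun T _ ih => andB (id4 LT k x T) ih) l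
/-- all sources -/
def idS (KTs : List K2) (LT : Nat) (k : Nat) (s : List SE) : Bool :=
  List.rec (motive := fun _ => Bool) true (fun x _ ih => andB (idL LT k x KTs) ih) s
/-- THE TEST OF THE IDENTITY BLOCKS -/
def chkI (KTs : List K2) (LT : Nat) (l : List IE) : Bool :=
  List.rec (motive := fun _ => Bool) true (fun x _ ih => andB (idS KTs LT x.k x.s) ih) l

/-! ### soundness -/

theorem subform_sound {X : ℕ} {N : Hm ℤ}
    (hX : Rep MM X (pk9 (2 ^ 256) (addH (addH N (idH (-2 ^ 136))) (cstH (2 ^ 255)))))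
    (hN : Bd (2 ^ 200) N) (h : psd (md X) = true) : PDz (addH N (idH (-2 ^ 136))) := by
  have h2 : Bd (2 ^ 136) (idH (-2 ^ 136)) := by
    have h := Bd.id (r := 2 ^ 136) (by positivity)
    obtain ⟨q1, q2, q3, q4, q5, q6, q7, q8, q9⟩ := h
    have q : |(-2 ^ 136 : ℤ)| ≤ 2 ^ 136 := by rw [abs_neg, abs_of_nonneg (by positivity)]
    exact ⟨q, q, q, q4, q5, q6, q7, q8, q9⟩
  exact psd_sound hX ((hN.add h2).mono (by decide +kernel)) h

theorem key_rep {n : ℕ} {M N : Hm ℤ} (h : Rep MM n (pk9 (2 ^ 256) M)) (e : M = N) :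
    Rep MM n (pk9 (2 ^ 256) N) := by
  rw [← e]
  exact h

theorem idE_pd {A B l : ℕ} (hl : l < 2 ^ 32) (h : idE A B l = true) :
    PDz (addH (addH (smulH (2 ^ 146) (kz A)) (smulH (-2 ^ 122 * l) (kz B)))
      (idH (-2 ^ 136))) := by
  have h1 : (l : ℤ) < 2 ^ 32 := by exact_mod_cast hl
  have h2 : (0 : ℤ) ≤ l := by positivity
  have b1 : |(2 ^ 146 : ℤ)| ≤ 2 ^ 146 := by rw [abs_of_nonneg (by positivity)]
  have b2 : |(-2 ^ 122 * (l : ℤ))| ≤ 2 ^ 122 * 2 ^ 32 := by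
    rw [abs_mul, abs_neg, abs_of_nonneg (show (0 : ℤ) ≤ 2 ^ 122 by positivity), abs_of_nonneg h2]
    exact mul_le_mul_of_nonneg_left h1.le (by positivity)
  refine subform_sound ?_ (((kz_bd A).smul b1 |>.add ((kz_bd B).smul b2)).mono
    (by decide +kernel)) h
  have r1 := rep_SC.add ((rep_NG.mul ((Rep.nat MM 33554432).mul (mkKN_rep A))).add
    (((Rep.nat MM 2).mul (Rep.nat MM l)).mul (mkKN_rep B)))
  simp only [pk9_smul, pk9_add] at r1
  refine key_rep r1 ?_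
  simp only [addH, smulH, Hm.mk.injEq]
  refine ⟨?_, ?_, ?_, ?_, ?_, ?_, ?_, ?_, ?_⟩ <;> (push_cast; ring)

theorem idC_pd {A0 A1 B0 B1 l0 l1 : ℕ} (hl0 : l0 < 2 ^ 32) (hl1 : l1 < 2 ^ 32)
    (h : idC A0 A1 B0 B1 l0 l1 = true) :
    PDz (addH (addH (smulH (2 ^ 145) (addH (kz A0) (kz A1)))
      (addH (smulH (-2 ^ 121 * l0) (kz B1)) (smulH (-2 ^ 121 * l1) (kz B0))))
      (idH (-2 ^ 136))) := by
  have b1 : |(2 ^ 145 : ℤ)| ≤ 2 ^ 145 := by rw [abs_of_nonneg (by positivity)]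
  have b2 : ∀ l : ℕ, l < 2 ^ 32 → |(-2 ^ 121 * (l : ℤ))| ≤ 2 ^ 121 * 2 ^ 32 := by
    intro l hl
    have h1 : (l : ℤ) < 2 ^ 32 := by exact_mod_cast hl
    have h2 : (0 : ℤ) ≤ l := by positivity
    rw [abs_mul, abs_neg, abs_of_nonneg (show (0 : ℤ) ≤ 2 ^ 121 by positivity), abs_of_nonneg h2]
    exact mul_le_mul_of_nonneg_left h1.le (by positivity)
  refine subform_sound ?_ (((((kz_bd A0).add (kz_bd A1)).smul b1).add
    (((kz_bd B1).smul (b2 l0 hl0)).add ((kz_bd B0).smul (b2 l1 hl1)))).mono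
    (by decide +kernel)) h
  have r1 := rep_SC.add ((rep_NG.mul ((Rep.nat MM 16777216).mul ((mkKN_rep A0).add
    (mkKN_rep A1)))).add (((Rep.nat MM l0).mul (mkKN_rep B1)).add
    ((Rep.nat MM l1).mul (mkKN_rep B0))))
  simp only [pk9_smul, pk9_add] at r1
  refine key_rep r1 ?_
  simp only [addH, smulH, Hm.mk.injEq]
  refine ⟨?_, ?_, ?_, ?_, ?_, ?_, ?_, ?_, ?_⟩ <;> (push_cast; ring)

/-- the conclusion at a corner -/
def IIneq (A0 A1 B0 B1 l0 l1 : ℕ) : Prop :=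
  ∀ t : ℝ, 0 ≤ t → t ≤ 1 → ∀ v : Fin 3 → ℂ,
    ((1 - t) * (l0 / 2 ^ 24) + t * (l1 / 2 ^ 24)) *
        ((1 - t) * ev (sc 1 (kz B0)) v + t * ev (sc 1 (kz B1)) v) + (1 / 2 ^ 10) * nrm v ≤
      (1 - t) * ev (sc 1 (kz A0)) v + t * ev (sc 1 (kz A1)) v

theorem ev_idE (A B l : ℕ) (v : Fin 3 → ℂ) :
    ev (sc 1 (addH (addH (smulH (2 ^ 146) (kz A)) (smulH (-2 ^ 122 * l) (kz B)))
      (idH (-2 ^ 136)))) v =
      2 ^ 146 * ev (sc 1 (kz A)) v - 2 ^ 122 * l * ev (sc 1 (kz B)) v - 2 ^ 136 * nrm v := by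
  rw [ev_lin, ev_lin, ev_lin]
  simp only [addH, smulH, idH, sc, nrm]
  push_cast
  ring

theorem ev_idC (A0 A1 B0 B1 l0 l1 : ℕ) (v : Fin 3 → ℂ) :
    ev (sc 1 (addH (addH (smulH (2 ^ 145) (addH (kz A0) (kz A1)))
      (addH (smulH (-2 ^ 121 * l0) (kz B1)) (smulH (-2 ^ 121 * l1) (kz B0))))
      (idH (-2 ^ 136)))) v =
      2 ^ 145 * (ev (sc 1 (kz A0)) v + ev (sc 1 (kz A1)) v) -
        2 ^ 121 * (l0 * ev (sc 1 (kz B1)) v + l1 * ev (sc 1 (kz B0)) v) - 2 ^ 136 * nrm v := by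
  rw [ev_lin, ev_lin, ev_lin, ev_lin, ev_lin]
  simp only [addH, smulH, idH, sc, nrm]
  push_cast
  ring

theorem id3_sound {A0 A1 B0 B1 l0 l1 : ℕ} (hl0 : l0 < 2 ^ 32) (hl1 : l1 < 2 ^ 32)
    (h : id3 A0 A1 B0 B1 l0 l1 = true) : IIneq A0 A1 B0 B1 l0 l1 := by
  unfold id3 at h
  simp only [andB_iff] at h
  obtain ⟨h1, h2, h3⟩ := h
  intro t t0 t1 v
  have e1 := PDz_ev (idE_pd hl0 h1) v
  have e2 := PDz_ev (idE_pd hl1 h2) v
  have e3 := PDz_ev (idC_pd hl0 hl1 h3) v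
  rw [ev_idE] at e1 e2
  rw [ev_idC] at e3
  have w0 : 0 ≤ (1 - t) ^ 2 := sq_nonneg _
  have w1 : 0 ≤ 2 * t * (1 - t) := by
    have : 0 ≤ 1 - t := by linarith
    positivity
  have w2 : 0 ≤ t ^ 2 := sq_nonneg _
  have f1 := mul_nonneg w0 e1
  have f2 := mul_nonneg w1 e3
  have f3 := mul_nonneg w2 e2
  generalize ev (sc 1 (kz A0)) v = a0 at *
  generalize ev (sc 1 (kz A1)) v = a1 at *
  generalize ev (sc 1 (kz B0)) v = b0 at *
  generalize ev (sc 1 (kz B1)) v = b1 at *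
  generalize nrm v = z at *
  have key : (1 - t) ^ 2 * (2 ^ 146 * a0 - 2 ^ 122 * l0 * b0 - 2 ^ 136 * z) +
      2 * t * (1 - t) * (2 ^ 145 * (a0 + a1) - 2 ^ 121 * (l0 * b1 + l1 * b0) - 2 ^ 136 * z) +
      t ^ 2 * (2 ^ 146 * a1 - 2 ^ 122 * l1 * b1 - 2 ^ 136 * z) =
      2 ^ 146 * (((1 - t) * a0 + t * a1) - ((1 - t) * (l0 / 2 ^ 24) + t * (l1 / 2 ^ 24)) *
        ((1 - t) * b0 + t * b1) - (1 / 2 ^ 10) * z) := by ring
  have h4 : 0 ≤ (2 : ℝ) ^ 146 * (((1 - t) * a0 + t * a1) - ((1 - t) * (l0 / 2 ^ 24) +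
      t * (l1 / 2 ^ 24)) * ((1 - t) * b0 + t * b1) - (1 / 2 ^ 10) * z) := by
    rw [← key]
    linarith
  have h5 := (mul_nonneg_iff_of_pos_left (show (0 : ℝ) < 2 ^ 146 by positivity)).1 h4
  linarith

theorem id4_sound {LT k : ℕ} {x : SE} {KT : K2} (h : id4 LT k x KT = true) :
    IIneq (kf KT.s k) (kf KT.t k) (kf KT.s x.k) (kf KT.t x.k) (u32 LT (64 * x.l))
      (u32 LT (64 * x.l + 32)) :=
  id3_sound (u32_lt _ _) (u32_lt _ _) h

theorem idL_sound {LT k : ℕ} {x : SE} {l : List K2} (h : idL LT k x l = true) :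
    ∀ T ∈ l, id4 LT k x T = true := by
  induction l with
  | nil => intro T hT; cases hT
  | cons y l ih =>
      have h' : andB (id4 LT k x y) (idL LT k x l) = true := h
      rw [andB_iff] at h'
      intro T hT
      rcases List.mem_cons.1 hT with rfl | hT
      · exact h'.1
      · exact ih h'.2 T hT

theorem idS_sound {KTs : List K2} {LT k : ℕ} {s : List SE} (h : idS KTs LT k s = true) :
    ∀ x ∈ s, idL LT k x KTs = true := by
  induction s with
  | nil => intro x hx; cases hx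
  | cons y s ih =>
      have h' : andB (idL LT k y KTs) (idS KTs LT k s) = true := h
      rw [andB_iff] at h'
      intro x hx
      rcases List.mem_cons.1 hx with rfl | hx
      · exact h'.1
      · exact ih h'.2 x hx

theorem chkI_all {KTs : List K2} {LT : ℕ} {l : List IE} (h : chkI KTs LT l = true) :
    ∀ x ∈ l, idS KTs LT x.k x.s = true := by
  induction l with
  | nil => intro x hx; cases hx
  | cons y l ih =>
      have h' : andB (idS KTs LT y.k y.s) (chkI KTs LT l) = true := h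
      rw [andB_iff] at h'
      intro x hx
      rcases List.mem_cons.1 hx with rfl | hx
      · exact h'.1
      · exact ih h'.2 x hx

/-- THE IDENTITY BLOCKS, at all corners -/
theorem chkI_sound {KTs : List K2} {LT : ℕ} {l : List IE} (h : chkI KTs LT l = true) :
    ∀ x ∈ l, ∀ y ∈ x.s, ∀ KT ∈ KTs, IIneq (kf KT.s x.k) (kf KT.t x.k) (kf KT.s y.k)
      (kf KT.t y.k) (u32 LT (64 * y.l)) (u32 LT (64 * y.l + 32)) :=
  fun x hx y hy KT hK => id4_sound (idL_sound (idS_sound (chkI_all h x hx) y hy) KT hK)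

end Pool.Agent.Helper17.KNI
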