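import Pool.Agent.Helper17.CX.KNI
import Pool.Agent.Helper21.CX.KCF

/-!
Row KNI of MP_c75db0, part 2: the identity blocks at a point of the cell, for the forms `KP`.
-/

set_option autoImplicit false
noncomputable section
namespace Pool.Agent.Helper17.KNI

open Pool.Agent.Helper86.CX
open Pool.Agent.Helper17.PAK
open Pool.Agent.Helper21.KCE
open Pool.Agent.Helper90.C75 (Wts wq bt)
open Complex ComplexConjugate

variable {n : ℕ} {wc : Fin n → ℝ} {t : ℝ}

theorem ev_Kt0 (L : List K2) (i : Fin n) (z : Fin 3 → ℂ) :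
    ev (Kt n L (i, 0)) z = ev (sc 1 (kz (g2 L i).s)) z := by
  rw [ev_lin, ev_lin]
  simp only [Kt, Gr, kt, gz, sc, kz, div_one]
  rfl

theorem ev_Kt2 (L : List K2) (i : Fin n) (z : Fin 3 → ℂ) :
    ev (Kt n L (i, 2)) z = ev (sc 1 (kz (g2 L i).t)) z := by
  rw [ev_lin, ev_lin]
  simp only [Kt, Gr, kt, gz, sc, kz, div_one]
  rfl

theorem ev_Kt1 (L : List K2) (i : Fin n) (z : Fin 3 → ℂ) :
    ev (Kt n L (i, 1)) z =
      (ev (sc 1 (kz (g2 L i).s)) z + ev (sc 1 (kz (g2 L i).t)) z) / 2 := by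
  rw [← ev_Kt0 (n := n), ← ev_Kt2 (n := n), ev_lin, ev_lin, ev_lin]
  have h : ∀ j, Gr n L j (i, 1) = (Gr n L j (i, 0) + Gr n L j (i, 2)) / 2 := fun j => rfl
  simp only [Kt, h]
  ring

/-- the value of a form of the table at a point -/
theorem ev_KP (L : List K2) (z : Fin 3 → ℂ) :
    ev (KP n wc t L) z = ∑ i, wc i * ((1 - t) * ev (sc 1 (kz (g2 L i).s)) z +
      t * ev (sc 1 (kz (g2 L i).t)) z) := by
  unfold KP
  rw [ev_avH, Fintype.sum_prod_type]
  refine Finset.sum_congr rfl fun i _ => ?_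
  rw [Fin.sum_univ_three, ev_Kt0, ev_Kt1, ev_Kt2]
  simp only [wq, bt, Matrix.cons_val_zero, Matrix.cons_val_one, Matrix.cons_val_two,
    Matrix.head_cons, Matrix.tail_cons, Matrix.cons_val]
  ring

theorem kfs_map (KTs : List K2) (k : ℕ) :
    kfs KTs k = KTs.map (fun T => (⟨kf T.s k, kf T.t k⟩ : K2)) := by
  induction KTs with
  | nil => rfl
  | cons x l ih => rw [List.map_cons, ← ih]; rfl

theorem g2_kfs {KTs : List K2} {i : ℕ} (h : i < KTs.length) (k : ℕ) :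
    ∃ T ∈ KTs, g2 KTs i = T ∧ ∀ k, g2 (kfs KTs k) i = ⟨kf T.s k, kf T.t k⟩ := by
  refine ⟨KTs[i], List.getElem_mem h, ?_, ?_⟩
  · unfold g2
    rw [List.getD_eq_getElem _ _ h]
  · intro k
    unfold g2
    rw [kfs_map]
    have h2 : i < (KTs.map (fun T => (⟨kf T.s k, kf T.t k⟩ : K2))).length := by
      rw [List.length_map]; exact h
    rw [List.getD_eq_getElem _ _ h2, List.getElem_map]

/-- THE IDENTITY BLOCKS AT A POINT, forms in units `2 ^ (-20)` -/
theorem chkI_point (hw : Wts wc) (h0 : 0 ≤ t) (h1 : t ≤ 1) {KTs : List K2}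
    (hL : KTs.length = n) {LT : ℕ} {l : List IE} (h : chkI KTs LT l = true) {x : IE}
    (hx : x ∈ l) {y : SE} (hy : y ∈ x.s) (v : Fin 3 → ℂ) :
    ((1 - t) * (u32 LT (64 * y.l) / 2 ^ 24) + t * (u32 LT (64 * y.l + 32) / 2 ^ 24)) *
        ev (KP n wc t (kfs KTs y.k)) v + (1 / 2 ^ 10) * nrm v ≤
      ev (KP n wc t (kfs KTs x.k)) v := by
  rw [ev_KP, ev_KP, Finset.mul_sum]
  have e : (1 / 2 ^ 10) * nrm v = ∑ i, wc i * ((1 / 2 ^ 10) * nrm v) := by
    rw [← Finset.sum_mul, hw.sum, one_mul]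
  rw [e, ← Finset.sum_add_distrib]
  refine Finset.sum_le_sum fun i _ => ?_
  obtain ⟨T, hT, -, hk⟩ := g2_kfs (KTs := KTs) (i := i) (by rw [hL]; exact i.2) 0
  rw [hk, hk]
  have h2 := chkI_sound h x hx y hy T hT t h0 h1 v
  have h3 := mul_le_mul_of_nonneg_left h2 (hw.nonneg i)
  refine le_trans (le_of_eq ?_) h3
  ring

end Pool.Agent.Helper17.KNI
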